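import Pool.Agent.Q165.BP.Lab

/-!
# The mesh `P_n × C_n × C_n × C_n` is biplanar

For all `m`, all `k ≥ 3` and all `n ≥ 3` the edge set of `P_m × C_k × C_n × C_n` can be split into the
edge sets of two planar graphs; for `m = k = n` this is the question.

Proof.  The edges of `P_m × C_k` are those of a Hamiltonian path (a helix) and those of a linear forest,
and the edges of `C_n × C_n` are those of two Hamiltonian cycles `C`, `C'`.  The product of the path and
`C` is a cylinder, and the product of the linear forest and `C'` is a subgraph of a cylinder.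
-/

set_option autoImplicit false

namespace Pool.Agent.Results.MP_d5a612_co.AllMeshes

open SimpleGraph Pool.Agent.Q165.BP

variable {m k n : ℕ}

theorem cyc_adj (hn : 3 ≤ n) {x y : Fin n} (h : (cycleGraph n).Adj x y) :
    y.val = (x.val + 1) % n ∨ x.val = (y.val + 1) % n := by
  have : NeZero n := ⟨by omega⟩
  rw [cycleGraph_adj'] at h
  rcases h with h | h
  · right
    conv_lhs => rw [← sub_add_cancel x y, Fin.val_add, h]
    rw [add_comm]
  · left
    conv_lhs => rw [← sub_add_cancel y x, Fin.val_add, h]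
    rw [add_comm]

/-- The mesh `P_m × C_k × C_n × C_n`. -/
abbrev Mesh (m k n : ℕ) : SimpleGraph (((Fin m × Fin k) × Fin n) × Fin n) :=
  ((pathGraph m □ cycleGraph k) □ cycleGraph n) □ cycleGraph n

/-- first labels -/
def a1 (v : ((Fin m × Fin k) × Fin n) × Fin n) : ℤ := lab1 k v.1.1.1 v.1.1.2
/-- first labels -/
def c1 (v : ((Fin m × Fin k) × Fin n) × Fin n) : ZMod (n * n) := (tor n v.1.2 v.2 : ℕ)
/-- second labels -/
def a2 (v : ((Fin m × Fin k) × Fin n) × Fin n) : ℤ := lab2 m k v.1.1.1 v.1.1.2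
/-- second labels -/
def c2 (v : ((Fin m × Fin k) × Fin n) × Fin n) : ZMod (n * n) := (tor n v.2 v.1.2 : ℕ)

theorem step_symm {V : Type} {B : ℕ} {a : V → ℤ} {c : V → ZMod B} {u v : V} (h : Step B a c u v) :
    Step B a c v u := by
  rcases h with ⟨h1, h2⟩ | ⟨h1, h2⟩
  · exact Or.inl ⟨h1.symm, h2.symm⟩
  · exact Or.inr ⟨h1.symm, h2.symm⟩

theorem cast_step {x y : ℕ} (h : x % (n * n) = (y + 1) % (n * n)) :
    (x : ZMod (n * n)) = (y : ZMod (n * n)) + 1 := by
  have := (ZMod.natCast_eq_natCast_iff' x (y + 1) (n * n)).2 h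
  push_cast at this
  exact this

theorem steps (hk : 3 ≤ k) (hn : 3 ≤ n) (u v : ((Fin m × Fin k) × Fin n) × Fin n)
    (h : (Mesh m k n).Adj u v) :
    Step (n * n) a1 c1 u v ∨ Step (n * n) a2 c2 u v := by
  obtain ⟨⟨⟨i, j⟩, x⟩, y⟩ := u
  obtain ⟨⟨⟨i', j'⟩, x'⟩, y'⟩ := v
  simp only [Mesh, boxProd_adj] at h
  rcases h with ⟨⟨⟨h1, h2⟩ | ⟨h1, h2⟩, h3⟩ | ⟨h1, h2⟩, h4⟩ | ⟨h1, h2⟩
  · -- along the path
    subst h2 h3 h4
    have main : ∀ p q : Fin m, p.val + 1 = q.val →
        Step (n * n) (a1 (k := k) (n := n)) c1 (((p, j), x), y) (((q, j), x), y) ∨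
        Step (n * n) (a2 (k := k) (n := n)) c2 (((p, j), x), y) (((q, j), x), y) := by
      intro p q hpq
      rcases step_up (m := m) hk p.val j.val with h | h
      · left
        refine Or.inr ⟨rfl, Or.inl ?_⟩
        simp only [a1, ← hpq]
        exact h
      · right
        refine Or.inr ⟨rfl, Or.inl ?_⟩
        simp only [a2, ← hpq]
        exact h
    rw [pathGraph_adj] at h1
    rcases h1 with h1 | h1
    · exact main i i' h1
    · exact (main i' i h1).imp step_symm step_symm
  · -- along the first cycle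
    subst h2 h3 h4
    have main : ∀ p q : Fin k, q.val = (p.val + 1) % k →
        Step (n * n) (a1 (m := m) (n := n)) c1 (((i, p), x), y) (((i, q), x), y) ∨
        Step (n * n) (a2 (m := m) (n := n)) c2 (((i, p), x), y) (((i, q), x), y) := by
      intro p q hpq
      rcases step_right (m := m) hk i.val p.val with h | h
      · left
        refine Or.inr ⟨rfl, Or.inl ?_⟩
        simp only [a1, hpq]
        exact h
      · right
        refine Or.inr ⟨rfl, Or.inl ?_⟩
        simp only [a2, hpq]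
        exact h
    rcases cyc_adj hk h1 with h1 | h1
    · exact main j j' h1
    · exact (main j' j h1).imp step_symm step_symm
  · -- along the second cycle
    obtain ⟨h5, h6⟩ := Prod.mk.injEq .. ▸ h2
    subst h4 h5 h6
    have main : ∀ p q : Fin n, q.val = (p.val + 1) % n →
        Step (n * n) (a1 (m := m) (k := k) (n := n)) c1 (((i, j), p), y) (((i, j), q), y) ∨
        Step (n * n) (a2 (m := m) (k := k) (n := n)) c2 (((i, j), p), y) (((i, j), q), y) := by
      intro p q hpq
      by_cases h : (p.val + y.val) % n = 0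
      · left
        refine Or.inl ⟨rfl, Or.inl ?_⟩
        simp only [c1, hpq]
        apply cast_step
        rw [tor_first hn p.isLt h]
      · right
        refine Or.inl ⟨rfl, Or.inl ?_⟩
        simp only [c2, hpq]
        apply cast_step
        rw [add_comm] at h
        exact tor_second hn y.isLt h
    rcases cyc_adj hn h1 with h1 | h1
    · exact main x x' h1
    · exact (main x' x h1).imp step_symm step_symm
  · -- along the third cycle
    obtain ⟨h5, h6⟩ := Prod.mk.injEq .. ▸ h2
    subst h6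
    obtain ⟨h7, h8⟩ := Prod.mk.injEq .. ▸ h5
    subst h7 h8
    have main : ∀ p q : Fin n, q.val = (p.val + 1) % n →
        Step (n * n) (a1 (m := m) (k := k) (n := n)) c1 (((i, j), x), p) (((i, j), x), q) ∨
        Step (n * n) (a2 (m := m) (k := k) (n := n)) c2 (((i, j), x), p) (((i, j), x), q) := by
      intro p q hpq
      by_cases h : (x.val + p.val) % n = 0
      · right
        refine Or.inl ⟨rfl, Or.inl ?_⟩
        simp only [c2, hpq]
        apply cast_step
        rw [add_comm] at h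
        rw [tor_first hn p.isLt h]
      · left
        refine Or.inl ⟨rfl, Or.inl ?_⟩
        simp only [c1, hpq]
        apply cast_step
        exact tor_second hn x.isLt h
    rcases cyc_adj hn h1 with h1 | h1
    · exact main y y' h1
    · exact (main y' y h1).imp step_symm step_symm

/-- **Theorem.** For all `m` and all `k, n ≥ 3` the edges of the mesh `P_m × C_k × C_n × C_n` can be split
into two planar graphs.  For `m = k = n` this is the question. -/
theorem result (m k n : ℕ) (hk : 3 ≤ k) (hn : 3 ≤ n) :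
    ∃ G₁ G₂ : SimpleGraph (((Fin m × Fin k) × Fin n) × Fin n),
      G₁ ⊔ G₂ = Mesh m k n ∧ Disjoint G₁ G₂ ∧
      Planar G₁ ∧ Planar G₂ := by
  classical
  have hB : 3 ≤ n * n := by nlinarith
  let G₁ : SimpleGraph (((Fin m × Fin k) × Fin n) × Fin n) :=
    { Adj := fun u v => (Mesh m k n).Adj u v ∧ Step (n * n) a1 c1 u v
      symm := ⟨fun u v h => ⟨h.1.symm, step_symm h.2⟩⟩
      loopless := ⟨fun u h => (Mesh m k n).irrefl h.1⟩ }
  have hle : G₁ ≤ Mesh m k n := fun u v h => h.1
  refine ⟨G₁, Mesh m k n \ G₁, sup_sdiff_cancel_right hle, disjoint_sdiff_self_right, ?_, ?_⟩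
  · refine planar_of_labels (a := a1) (c := c1) G₁ hB ?_ fun u v h => h.2
    rintro ⟨⟨⟨i, j⟩, x⟩, y⟩ ⟨⟨⟨i', j'⟩, x'⟩, y'⟩ h1 h2
    obtain ⟨h3, h4⟩ := lab1_inj (by omega) j.isLt j'.isLt h1
    have h5 : tor n x y = tor n x' y' := by
      have h6 := (ZMod.natCast_eq_natCast_iff' _ _ _).1 h2
      rwa [Nat.mod_eq_of_lt (tor_lt hn x.isLt), Nat.mod_eq_of_lt (tor_lt hn x'.isLt)] at h6
    obtain ⟨h7, h8⟩ := tor_inj hn x.isLt y.isLt x'.isLt y'.isLt h5
    have e1 : i = i' := Fin.ext h3
    have e2 : j = j' := Fin.ext h4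
    have e3 : x = x' := Fin.ext h7
    have e4 : y = y' := Fin.ext h8
    rw [e1, e2, e3, e4]
  · refine planar_of_labels (a := a2) (c := c2) _ hB ?_ fun u v h => ?_
    · rintro ⟨⟨⟨i, j⟩, x⟩, y⟩ ⟨⟨⟨i', j'⟩, x'⟩, y'⟩ h1 h2
      obtain ⟨h3, h4⟩ := lab2_inj hk j.isLt j'.isLt i.isLt i'.isLt h1
      have h5 : tor n y x = tor n y' x' := by
        have h6 := (ZMod.natCast_eq_natCast_iff' _ _ _).1 h2
        rwa [Nat.mod_eq_of_lt (tor_lt hn y.isLt), Nat.mod_eq_of_lt (tor_lt hn y'.isLt)] at h6
      obtain ⟨h7, h8⟩ := tor_inj hn y.isLt x.isLt y'.isLt x'.isLt h5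
      have e1 : i = i' := Fin.ext h3
      have e2 : j = j' := Fin.ext h4
      have e3 : y = y' := Fin.ext h7
      have e4 : x = x' := Fin.ext h8
      rw [e1, e2, e3, e4]
    · rw [SimpleGraph.sdiff_adj] at h
      rcases steps hk hn u v h.1 with h1 | h1
      · exact absurd ⟨h.1, h1⟩ h.2
      · exact h1

end Pool.Agent.Results.MP_d5a612_co.AllMeshes
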